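import Pool.Agent.H37.CNS.Stmts
import Pool.Agent.H26.CNZ.CJC

/-!
# Board `cns`, row ASD: the degree of an Artin-Schreier generator is the conductor of a quotient
-/

set_option autoImplicit false

namespace Pool.CND

open Finset

/-- the order of an Artin-Schreier generator at infinity -/
theorem asd_ord {p : ℕ} {k L : Type} [Field k] [Field L] [Algebra k L] (P : Place k L) {t Y : L}
    {f : Polynomial k} (hp : p.Prime) (ht : P.ord t < 0) (ht0 : t ≠ 0) (hf : 1 ≤ f.natDegree)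
    (hY : Y ^ p - Y = Polynomial.aeval t f) :
    Y ≠ 0 ∧ (p : ℤ) * P.ord Y = f.natDegree * P.ord t := by
  have hf0 : f ≠ 0 := by
    rintro rfl
    simp at hf
  obtain ⟨h1, h2⟩ := cjc_aeval P ht ht0 _ f le_rfl hf0
  have hfz : (1 : ℤ) ≤ (f.natDegree : ℤ) := by exact_mod_cast hf
  have hneg : P.ord (Polynomial.aeval t f) < 0 := by rw [h2]; nlinarith
  have hp2 : (2 : ℤ) ≤ (p : ℤ) := by exact_mod_cast hp.two_le
  have hY0 : Y ≠ 0 := by
    rintro rfl
    rw [zero_pow hp.ne_zero, sub_zero] at hY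
    exact h1 hY.symm
  refine ⟨hY0, ?_⟩
  have hYp : Y ^ p ≠ 0 := pow_ne_zero _ hY0
  have hYneg : P.ord Y < 0 := by
    by_contra hc
    rw [not_lt] at hc
    have h3 : P.Ge (Y ^ p - Y) 0 :=
      P.ge_sub (Or.inr (by rw [P.ord_pow hY0]; positivity)) (Or.inr hc)
    rw [hY] at h3
    have h4 := h3.resolve_left h1
    omega
  have h5 := P.ord_add_of_lt (x := Y ^ p) (y := -Y) hYp
    (Or.inr (by rw [P.ord_neg, P.ord_pow hY0]; nlinarith))
  rw [← sub_eq_add_neg, hY, P.ord_pow hY0, h2] at h5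
  exact h5.2.symm

/-- the kernel of a nonzero homomorphism to `F_p` -/
theorem asd_ker {p : ℕ} {G : Type} [Group G] [Finite G] (hp : p.Prime) (y : G → ZMod p)
    (hy : ∀ g h : G, y (g * h) = y g + y h) (hne : ∃ g : G, y g ≠ 0) :
    ∃ N : Subgroup G, (∀ g, g ∈ N ↔ y g = 0) ∧ Nat.card G = p * Nat.card N := by
  haveI : Fact p.Prime := ⟨hp⟩
  let φ : G →* Multiplicative (ZMod p) :=
    MonoidHom.mk' (fun g => Multiplicative.ofAdd (y g)) (fun g h => by
      show Multiplicative.ofAdd (y (g * h)) = Multiplicative.ofAdd (y g) * Multiplicative.ofAdd (y h)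
      rw [hy, ofAdd_add])
  have hmem : ∀ g, g ∈ φ.ker ↔ y g = 0 := by
    intro g
    rw [MonoidHom.mem_ker]
    exact Iff.rfl
  refine ⟨φ.ker, hmem, ?_⟩
  have hcard : Nat.card (Multiplicative (ZMod p)) = p := by
    rw [Nat.card_congr Multiplicative.toAdd, Nat.card_zmod]
  have hrange : φ.range = ⊤ := by
    haveI : Fact (Nat.card (Multiplicative (ZMod p))).Prime := ⟨by rw [hcard]; exact hp⟩
    rcases Subgroup.eq_bot_or_eq_top_of_prime_card φ.range with h | h
    · exfalso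
      obtain ⟨g, hg⟩ := hne
      have h1 : φ g ∈ φ.range := ⟨g, rfl⟩
      rw [h, Subgroup.mem_bot] at h1
      exact hg h1
    · exact h
  have h1 := φ.ker.card_mul_index
  rw [Subgroup.index_ker, hrange, Subgroup.card_top, hcard] at h1
  rw [← h1, mul_comm]

/-- the sum of a constant over the complement of a subgroup -/
theorem asd_sm {G : Type} [Group G] [Fintype G] (N : Subgroup G) (D : ℤ) :
    sm (fun _ : G => D) {g | g ∈ (⊤ : Subgroup G) ∧ g ∉ N} =
      ((Nat.card G : ℤ) - Nat.card N) * D := by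
  classical
  have h1 : sm (fun _ : G => D) {g | g ∈ (⊤ : Subgroup G) ∧ g ∉ N} =
      ((Finset.univ.filter (fun g : G => g ∉ N)).card : ℤ) * D := by
    unfold sm
    rw [Finset.sum_const, nsmul_eq_mul]
    congr 2
    refine congrArg Finset.card ?_
    ext g
    simp
  have h2 : (Finset.univ.filter (fun g : G => g ∈ N)).card = Nat.card N := by
    rw [Nat.card_eq_fintype_card, Fintype.card_subtype]
  have h3 := Finset.card_filter_add_card_filter_not (s := (Finset.univ : Finset G)) (fun g => g ∈ N)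
  rw [h2, Finset.card_univ, ← Nat.card_eq_fintype_card] at h3
  rw [h1, ← h3]
  push_cast
  ring

theorem asd_thm (hPTR : S_PTR) (hHBX : S_HBX) (hUQM : S_UQM) (hUQT : S_UQT) (hCON : S_CON)
    (hUMW : S_UMW) (hWLD : S_WLD) (hRAM : S_RAM) (hINF : S_INF) : S_ASD := by
  intro p k L G _ _ _ _ _ _ _ ρ t P c y Y f hp hcard hcov htP hc hy hYf hYg hne hf1 hpf
  haveI : Fact p.Prime := ⟨hp⟩
  haveI := Fintype.ofFinite G
  have hinj := hcov.inj
  have hW : ram P ρ 1 = Set.univ := hPTR p k L G ρ t P hp inferInstance hcard hcov htP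
  obtain ⟨W, I, hW1, hI0, hWI, -, -⟩ := hWLD p k L G P ρ hp inferInstance hinj
  have hWtop : W = ⊤ := by
    rw [hW] at hW1
    exact SetLike.coe_injective (by rw [hW1, Subgroup.coe_top])
  subst hWtop
  have hItop : I = ⊤ := top_le_iff.1 hWI
  subst hItop
  have ht0 : t ≠ 0 := by
    rintro rfl
    exact hcov.trans (isAlgebraic_zero)
  have hordt : P.ord t = -(Nat.card G : ℤ) := by
    have := hINF k L G ρ t P ⊤ hcov htP hI0
    rwa [Subgroup.card_top] at this
  obtain ⟨hY0, hordY⟩ := asd_ord P hp htP ht0 hf1 hYf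
  obtain ⟨N, hN, hGN⟩ := asd_ker hp y hy hne
  have hpz : (p : ℤ) ≠ 0 := by exact_mod_cast hp.ne_zero
  have hordY' : P.ord Y = -((f.natDegree * Nat.card N : ℕ) : ℤ) := by
    rw [hordt, hGN] at hordY
    push_cast at hordY ⊢
    have : (p : ℤ) * (P.ord Y + f.natDegree * Nat.card N) = 0 := by linear_combination hordY
    have h1 := (mul_eq_zero.1 this).resolve_left hpz
    linarith
  have hnorm : ∀ g ∈ (⊤ : Subgroup G), ∀ n ∈ N, g * n * g⁻¹ ∈ N := by
    intro g _ n hn
    rw [hN] at hn ⊢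
    have h1 : y g⁻¹ = -y g := by
      have h2 := hy g g⁻¹
      have h3 := hy 1 1
      rw [mul_one] at h3
      have h4 : y 1 = 0 := by linear_combination -h3
      rw [mul_inv_cancel, h4] at h2
      linear_combination -h2
    rw [hy, hy, hn, h1]
    ring
  have hfp : ∀ a : ZMod p, fp k a = 0 ↔ a = 0 := by
    intro a
    unfold fp
    exact map_eq_zero_iff _ (RingHom.injective _)
  have hB : ∀ g ∈ (⊤ : Subgroup G), g ∉ N →
      sm (fun g => P.b (ρ g)) {x | g⁻¹ * x ∈ N} = Nat.card N * ((fun _ : G => (f.natDegree : ℤ)) g) := by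
    intro g hg hgN
    refine hHBX p k L G P ρ N ⊤ g Y (fp k (y g)) f.natDegree hp inferInstance hinj le_top
      (fun g _ => by rw [hW]; exact Set.mem_univ g) hnorm hg hgN ?_ hY0 ?_ (hYg g) hordY' hpf hf1
    · intro n hn
      rw [hYg n, (hN n).1 hn, (hfp 0).2 rfl, map_zero, add_zero]
    · rw [Ne, hfp, ← hN]
      exact hgN
  have hum := hUMW k L G P ρ ⊤ hinj hW1
  obtain ⟨g₀, hg₀⟩ := hne
  have hg₀N : g₀ ∉ N := by rw [hN]; exact hg₀
  have hg₀1 : g₀ ≠ 1 := by
    rintro rfl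
    exact hg₀N N.one_mem
  -- the conductor is not zero
  have hc0 : c ≠ 0 := by
    obtain ⟨l0, hl1, hl2, hc'⟩ := hc
    have hl0 : l0 ≠ 0 := by
      rintro rfl
      rw [zero_add, hW] at hl2
      have : g₀ ∈ ({1} : Set G) := by rw [← hl2]; exact Set.mem_univ _
      exact hg₀1 this
    have h1 : (0 : ℚ) < ((ram P ρ 1).ncard : ℚ) := by
      rw [hW, Set.ncard_univ]
      exact_mod_cast Nat.card_pos
    have h0 : (0 : ℚ) < ((ram P ρ 0).ncard : ℚ) := by
      rw [← hI0, Subgroup.coe_top, Set.ncard_univ]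
      exact_mod_cast Nat.card_pos
    have h2 : (0 : ℚ) < ∑ i ∈ Icc 1 l0, ((ram P ρ i).ncard : ℚ) :=
      Finset.sum_pos' (fun i _ => by positivity) ⟨1, by rw [mem_Icc]; omega, h1⟩
    rw [hc']
    exact (div_pos h2 h0).ne'
  obtain ⟨l, hl, hcl⟩ := (hCON k L G P ρ ⊤ ⊤ c hinj hW1 hI0 hc).resolve_left hc0
  have hGpos : (0 : ℚ) < (Nat.card G : ℚ) := by exact_mod_cast Nat.card_pos
  have hcard' : (Nat.card (⊤ : Subgroup G) : ℚ) = Nat.card G := by
    exact_mod_cast congrArg (Nat.cast : ℕ → ℚ) (Subgroup.card_top (G := G))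
  have hcU : c = U (fun g => P.b (ρ g)) ⊤ l := by
    rw [hcard'] at hcl
    exact mul_left_cancel₀ hGpos.ne' hcl
  have hsum : ((Nat.card N : ℤ) * (f.natDegree : ℤ) +
      sm (fun _ : G => (f.natDegree : ℤ)) {g | g ∈ (⊤ : Subgroup G) ∧ g ∉ N}) =
      (Nat.card G : ℤ) * f.natDegree := by
    rw [asd_sm]
    ring
  refine ⟨?_, ?_⟩
  · have h1 := hUQM G (fun g => P.b (ρ g)) (fun _ : G => (f.natDegree : ℤ)) N ⊤ l g₀ hum le_top
      hnorm hB hl (Subgroup.mem_top _) hg₀N
    rw [hsum, hcard', ← hcU] at h1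
    push_cast at h1
    exact le_of_mul_le_mul_left h1 hGpos
  · intro m hm ⟨g, hg, hyg⟩
    have hg1 : g ≠ 1 := by
      rintro rfl
      apply hyg
      rw [← hN]
      exact N.one_mem
    have hρ1 : ∀ h : G, h ≠ 1 → ρ h ≠ 1 := by
      intro h hh h1
      exact hh (hinj (by rw [h1, map_one]))
    have hm0 : 1 ≤ m := by
      by_contra h0
      have h1 : m = 0 := by omega
      subst h1
      rw [zero_add, hW] at hm
      have : g ∈ ({1} : Set G) := by rw [← hm]; exact Set.mem_univ _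
      exact hg1 this
    have hbg : (m : ℤ) ≤ P.b (ρ g) :=
      ((hRAM k L G P ρ g m hm0).1 hg).2.resolve_left (hρ1 g hg1)
    have hall : ∀ h : G, h ≠ 1 → P.b (ρ h) ≤ m := by
      intro h hh
      by_contra hcon
      rw [not_le] at hcon
      have h1 : h ∈ ram P ρ 1 := by rw [hW]; exact Set.mem_univ _
      have h2 : Fixes P (ρ h) := ((hRAM k L G P ρ h 1 le_rfl).1 h1).1
      have h3 : h ∈ ram P ρ (m + 1) :=
        (hRAM k L G P ρ h (m + 1) (by omega)).2 ⟨h2, Or.inr (by push_cast; omega)⟩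
      rw [hm] at h3
      exact hh h3
    have hbg' : P.b (ρ g) = m := le_antisymm (hall g hg1) hbg
    obtain ⟨g', hg', hg'1, hg'l⟩ := hl.mem
    have hlm : l = m := by
      refine le_antisymm ?_ ?_
      · rw [← hg'l]
        exact hall g' hg'1
      · rw [← hbg']
        exact hl.le g (Subgroup.mem_top _) hg1
    have hgN : g ∉ N := by rw [hN]; exact hyg
    have h1 := (hUQT G (fun g => P.b (ρ g)) (fun _ : G => (f.natDegree : ℤ)) N ⊤ l g hum le_top
      hnorm hB hl (Subgroup.mem_top _) hgN (by rw [hlm]; exact hbg')).2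
    rw [hcard', ← hcU] at h1
    have h2 : ((Nat.card N : ℚ) * ((f.natDegree : ℤ) : ℚ) +
        ((sm (fun _ : G => (f.natDegree : ℤ)) {g | g ∈ (⊤ : Subgroup G) ∧ g ∉ N} : ℤ) : ℚ)) =
        (Nat.card G : ℚ) * f.natDegree := by
      exact_mod_cast hsum
    rw [h2] at h1
    exact mul_left_cancel₀ hGpos.ne' h1

end Pool.CND
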